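import Pool.Agent.TH526.CP.Fin
import Pool.Agent.TH122.AB.Fin
import Pool.Agent.TH710.ND.Proj
import Pool.Agent.TH710.ND.Sp

/-!
# The Campana-Peternell conjecture for covers of projective space over an arrangement and for
varieties given by nested sums of high powers

The function-field language of the starting repository is used: prime divisors over `X` are the
divisorial places `v` of the function field `K` of `X`, `v.ord` is the order along `v`.
-/

set_option autoImplicit false

open FF MvPolynomial Pool.Agent.W602.Cov Pool.Agent.W602.GT Pool.Agent.TH526.CP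
open Pool.Agent.TH710.ND (HighTowers)

namespace Pool.Agent.Results.MP_370cf3_ag.CoversAndTowers

/-- The multiplicities of the cover `X` are at least `m`: whenever a germ of a curve in projective
space through a point of the arrangement meets the hyperplane `ℓ i = 0` with multiplicity `v i`, and
these multiplicities are compatible with the equations `y k ^ m k = ∏ i, ℓ i (x) ^ e k i` of `X`, at
least one of them is at least `m`. -/
def Multiplicities {n q r : ℕ} (X : Cover n q r) (m : ℕ) : Prop :=
  ∀ v : Fin q → ℕ, v ≠ 0 → (∃ x : Fin (n + 1) → ℂ, x ≠ 0 ∧ ∀ i, v i ≠ 0 → X.ℓ i x = 0) →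
    (∀ k, X.m k ∣ ∑ i, X.e k i * v i) → ∃ i, m ≤ v i

/-- Let `V` be a projective manifold of dimension `w` with function field `K` and let `A` be an
effective `ℝ`-divisor on `V`, with multiplicity `a v` along the divisor `v` over `V`, such that
`K_V - A` is pseudo-effective. Then `κ (A) ≤ κ (V)`, i.e. `κ (A) ≥ h` implies `κ (V) ≥ h` for all
`h ≤ w`, in the following two cases.

(1) `V` is birational to an abelian cover `X` of projective `n`-space over an arbitrary arrangement
of hyperplanes, with multiplicities at least `n + 2` (here `w = n`).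

(2) `V` is birational to an irreducible component of a projective variety given by forms which are
nested sums of high powers of linear forms, or nested sums of high powers of monomials: at each of
at most `h' + 1` levels there are at most `s` summands, and the exponents are at least
`(n + 1) (h' + 1) (2 s + 1) ^ 5`. -/
theorem result :
    (∀ (n q r : ℕ), 1 ≤ n → ∀ X : Cover n q r, X.Free → Multiplicities X (n + 2) →
      ∀ (K : Type) [Field K] [Algebra ℂ K] (x : Fin (n + 1) → K) (y : Fin r → K),
        X.FunctionField K x y → ∀ a : Place ℂ K → ℝ,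
        RestPsef ℂ K n (fun _ => False) (fun _ => 0) a → ∀ h ≤ n, DivGe ℂ K n a h →
          KodGe ℂ K n (fun _ => False) h) ∧
    (∀ (n : ℕ) (ι : Type) (F : ι → MvPolynomial (Fin (n + 1)) ℂ) (s N h' : ℕ),
      HighTowers s N h' F → (n + 1) * ((h' + 1) * (2 * s + 1) ^ 5) ≤ N →
      ∀ (K : Type) [Field K] [Algebra ℂ K] (w : ℕ) (y : Fin (n + 1) → K),
        SubVar F K w y → IsComponent F y → ∀ a : Place ℂ K → ℝ,
        RestPsef ℂ K w (fun _ => False) (fun _ => 0) a → ∀ h ≤ w, DivGe ℂ K w a h →
          KodGe ℂ K w (fun _ => False) h) := by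
  refine ⟨fun n q r hn X hX hm K _ _ x y hK a hps h hh hA => ?_,
    fun n ι F s N h' hF hN K _ _ w y hy hcomp a hps h hh hA => ?_⟩
  · rcases Pool.Agent.TH122.AB.trichotomy hn X hX hK hm with ⟨-, -, h1⟩ | ⟨-, -, h1, h2⟩ |
      ⟨-, -, h1⟩
    · exact absurd (psef_gt hps hA) h1
    · have h3 : h = 0 := Nat.le_zero.1 (le_of_num (num_zero h2) hps hA)
      rw [h3]
      exact h1
    · exact kod_general h1 hh
  · rcases Pool.Agent.TH710.ND.general_psef_or_ruled hF (Pool.Agent.TH710.ND.bnd_le hN).1 hy hcomp
      with ⟨-, h1⟩ | ⟨h1, -⟩
    · exact kod_general h1 hh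
    · exact absurd (psef_gt hps hA) h1

end Pool.Agent.Results.MP_370cf3_ag.CoversAndTowers
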