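import Pool.Agent.TH526.CP.Log
import Pool.Agent.TH194.LP.Main

/-! The Campana-Peternell conjecture for log canonical pairs on quotients of products of a variety
and open curves. -/

set_option autoImplicit false
set_option linter.overlappingInstances false

universe u

open FF IntermediateField Pool.Agent.W619.PQ Pool.Agent.W619.PL Pool.Agent.W619.TW
  Pool.Agent.W619.X Pool.Agent.W619.Y Pool.Agent.TH194.LP Pool.Agent.TH526.CP

namespace Pool.Agent.Results.MP_370cf3_ag.MixedLogPairs

/-- Let `Y` be a projective variety of dimension `d` with function field `M` (for instance a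
point), `F i` (`i < n`) the function fields of curves `C i`, `Z` the product of `Y` and the curves,
with function field `L` (`hsup`), `G` a finite group of automorphisms of `L` which permutes the
curves through `σ`, and `B i` a finite set of points of the quotient of `C i` by its stabilizer,
such that the `B i` are permuted by `G`. Let `(X, D + Δ)` be a pair, `X` a projective manifold
birational to `Z / G`, `D` a reduced divisor with normal crossings such that the divisors over `D`
are those over a point of some `B i`, and `Δ` an effective divisor with multiplicity `δ v` along the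
divisor `v` (all `B i` may be empty and `Δ` may be zero). Let `P` be the set of indices of curves
such that `C i` minus the preimage of `B i` is hyperbolic, and assume that `Δ` is at most the
pull-back of a divisor from the quotient of the product of the curves in `P`. Assume `LogMixedPos`,
for instance that the fixed locus of each `g ≠ 1` in `G` on the product of the curves is empty or of
codimension at least `7`. Assume `κ (Y) = ν (Y) = b`. Let `A` be an effective `ℝ`-divisor on `X`
such that `K_X + D + Δ - A` is pseudo-effective. Then `κ (A) ≤ κ (K_X + D + Δ)`; more precisely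
`κ (K_X + D + Δ) = b + |P|`, and `κ (A) ≤ b + |P|`. -/
theorem result {L : Type u} [Field L] [Algebra ℂ L] (d n : ℕ)
    (hn : Algebra.trdeg ℂ L = (d + n : ℕ))
    (M : IntermediateField ℂ L) [Algebra.EssFiniteType ℂ M] (hM : Algebra.trdeg ℂ M = d)
    (F : Fin n → IntermediateField ℂ L) (hF : ∀ i, IsFF ℂ (F i))
    (hsup : M ⊔ (⨆ i, F i) = ⊤)
    (G : Subgroup (L ≃ₐ[ℂ] L)) [Finite G] (σ : G →* Equiv.Perm (Fin n))
    (hσ : ∀ (g : G) i, ∀ z ∈ F i, (g : L ≃ₐ[ℂ] L) z ∈ F (σ g i))
    (B : ∀ i, Set (Place ℂ ↥(F i ⊓ fixedField (stb G σ i)))) (hB : ∀ i, (B i).Finite)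
    (hinv : BdInv G σ F B) (h : LogMixedPos G σ F B)
    (δ : Place ℂ (fixedField G) → ℝ) (hδ : ∀ v, 0 ≤ δ v) (P : Set (Fin n))
    (hP : ∀ i, i ∈ P ↔ ¬ IsNegative (inf_le_left : F i ⊓ fixedField (stb G σ i) ≤ F i) (B i) ∧
      ¬ IsFlat (inf_le_left : F i ⊓ fixedField (stb G σ i) ≤ F i) (B i))
    (hδP : BoundedByR (⨆ i : P, F i) (d + n) δ) (b : ℕ) (hb : KodTr ℂ M d b)
    (hν : NumLe ℂ M d (fun _ => False) b)
    (a : Place ℂ (fixedField G) → ℝ)
    (hps : RestPsef ℂ (fixedField G) (d + n) (BdQ G σ F B) δ a) (κ : ℕ)
    (hA : DivGe ℂ (fixedField G) (d + n) a κ) :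
    κ ≤ b + P.ncard ∧
      ∀ j, LPKodGe ℂ (fixedField G) (d + n) (BdQ G σ F B) δ j ↔ j ≤ b + P.ncard := by
  obtain ⟨-, h2, h3⟩ := lp_ab d n hn M hM F hsup G σ hσ B hB hinv h δ hδ P hP hδP b hb hν
    (psef hps hA)
  exact ⟨le_of_num h3 hps hA, (exact_of h2 h3).1⟩

end Pool.Agent.Results.MP_370cf3_ag.MixedLogPairs
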