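import Pool.Agent.TH756.CP.Main

/-!
# The Campana-Peternell conjecture for covers of products of projective spaces over arrangements

For `i < r` let `ℓ i k = 0`, `k < q i`, be hyperplanes in projective `n i`-space, an arbitrary
arrangement (general position is not assumed), let `N` be the sum of the numbers `n i`, and let `X`
be an abelian cover of the product of the projective spaces which is branched over the hyperplanes,
with multiplicities at least `n i + 2`. Let `Y` be a projective manifold birational to `X`. If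
`K_Y = A + B` up to multiples, where `B` is pseudo-effective, then `κ (Y) ≥ ν (A) ≥ κ (A)`.

More generally let `U` be a set of the hyperplanes and `D` the reduced preimage of `U`, a divisor with
normal crossings on `Y`. If the arrangements are not reducible, and the multiplicities outside `U` are
at least `n i + 2`, then the same holds for `K_Y + D`.

The function-field language of the starting repository is used: prime divisors over `X` are the
divisorial places `P` of the function field `K` of `X` (`Divisorial`), `P.ord` is the order along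
`P`, and `Over U ℓ x` is the set of the places which lie over the hyperplanes in `U`, the components
of `D`. `KodGe ℂ K N (Over U ℓ x) h` says that `κ (K_Y + D) ≥ h`, and `IsPsefRest ℂ K N (Over U ℓ x) s a`
that `s (K_Y + D) - A` is pseudo-effective, where `A` has the multiplicity `a v` along `v`.
-/

set_option autoImplicit false

open FF Pool.Agent.W602.Cov Pool.Agent.W602.GT

namespace Pool.Agent.Results.MP_370cf3_ag.ProductCovers

variable {r N Q R : ℕ} {n q : Fin r → ℕ}

/-- A linear form on the `i`-th factor as a linear form on projective `N`-space, which has the same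
affine coordinates as the product of the projective `n i`-spaces; the number of the `j`-th affine
coordinate of the `i`-th factor is `e ⟨i, j⟩`. -/
noncomputable def onFactor (e : ((i : Fin r) × Fin (n i)) ≃ Fin N) (i : Fin r)
    (φ : Form (n i)) : Form N :=
  φ ∘ₗ LinearMap.funLeft ℂ ℂ (Fin.cases 0 fun j => (e ⟨i, j⟩).succ)

/-- `X` is an abelian cover `y j ^ m j = ∏ i, ∏ k, ℓ i k (x i) ^ e' j i k` of the product of the
projective spaces: the hyperplane at infinity of the `i`-th factor is one of the `ℓ i k`, and the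
degree of the equations in the coordinates `x i` of the `i`-th factor is divisible by `m j`. In
affine coordinates this is a cover of the affine part of projective `N`-space, and it is written in
this way. -/
structure CoverOfProduct (X : Cover N Q R) (e : ((i : Fin r) × Fin (n i)) ≃ Fin N)
    (e' : ((i : Fin r) × Fin (q i)) ≃ Fin Q) (ℓ : ∀ i, Fin (q i) → Form (n i)) : Prop where
  forms : ∀ i k, X.ℓ (e' ⟨i, k⟩) = onFactor e i (ℓ i k)
  infinity : ∀ i, ∃ (k : Fin (q i)) (c : ℂ), ℓ i k = c • LinearMap.proj 0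
  degrees : ∀ j i, X.m j ∣ ∑ k, X.e j (e' ⟨i, k⟩)

/-- The coordinates of the map to the `i`-th factor. -/
def coordinates {K : Type} (e : ((i : Fin r) × Fin (n i)) ≃ Fin N) (z : Fin (N + 1) → K)
    (i : Fin r) (j : Fin (n i + 1)) : K :=
  z ((Fin.cases 0 fun j => (e ⟨i, j⟩).succ : Fin (n i + 1) → Fin (N + 1)) j)

/-- The value of a linear form at a vector over `K`. -/
noncomputable def form {n : ℕ} {K : Type} [Field K] [Algebra ℂ K] (φ : Form n)
    (x : Fin (n + 1) → K) : K := ∑ j, algebraMap ℂ K (φ (Pi.single j 1)) * x j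

/-- The place `P` lies over one of the hyperplanes in `U`: the order of this linear form is greater
than the order of some other linear form on the same factor. -/
def Over (U : ∀ i, Fin (q i) → Prop) (ℓ : ∀ i, Fin (q i) → Form (n i)) {K : Type} [Field K]
    [Algebra ℂ K] (x : ∀ i, Fin (n i + 1) → K) (P : Place ℂ K) : Prop :=
  ∃ i k, U i k ∧ ∃ φ : Form (n i), form φ (x i) ≠ 0 ∧
    P.ord (form φ (x i)) < P.ord (form (ℓ i k) (x i))

/-- The multiplicities of the cover `X` outside the hyperplanes in `U` are at least `n i + 2`: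
whenever a germ of a curve in the product of the projective spaces meets the hyperplanes `ℓ i k = 0`
with multiplicities `v i k`, not all `0` but `0` for the hyperplanes in `U`, and these
multiplicities are compatible with the equations of `X`, at least one of the numbers `v i k` is at
least `n i + 2`. -/
def Multiplicities (X : Cover N Q R) (e' : ((i : Fin r) × Fin (q i)) ≃ Fin Q)
    (ℓ : ∀ i, Fin (q i) → Form (n i)) (U : ∀ i, Fin (q i) → Prop) : Prop :=
  ∀ v : ∀ i, Fin (q i) → ℕ, (∃ i, v i ≠ 0) →
    (∀ i, ∃ x : Fin (n i + 1) → ℂ, x ≠ 0 ∧ ∀ k, v i k ≠ 0 → ℓ i k x = 0) →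
    (∀ j, X.m j ∣ ∑ i, ∑ k, X.e j (e' ⟨i, k⟩) * v i k) → (∀ i k, U i k → v i k = 0) →
    ∃ i k, n i + 2 ≤ v i k

/-- `κ (A) ≥ h` for the divisor `A` with multiplicity `a v` along each divisor `v`: there is
`m ≥ 1` with `h⁰ (j m A) ≥ j ^ h` for all `j ≥ 1`. -/
def KodairaDimGe (K : Type) [Field K] [Algebra ℂ K] (N : ℕ) (a : Place ℂ K → ℤ) (h : ℕ) : Prop :=
  ∃ m : ℕ, 1 ≤ m ∧ ∀ j : ℕ, 1 ≤ j → ∃ f : Fin (j ^ h) → K, LinearIndependent ℂ f ∧
    ∀ l, ∀ v : Place ℂ K, Divisorial N v → - (j * m * a v) ≤ v.ord (f l)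

/-- `ν (A) ≥ h` for the divisor `A` with multiplicity `a v` along each divisor `v`: there are a
divisor `H` (generated by a finite set `S` of functions) and `m ≥ 1` with `h⁰ (j m A + H) ≥ j ^ h`
for all `j ≥ 1`. -/
def NumericalDimGe (K : Type) [Field K] [Algebra ℂ K] (N : ℕ) (a : Place ℂ K → ℤ)
    (h : ℕ) : Prop :=
  ∃ (S : Finset K) (m : ℕ), 1 ≤ m ∧ ∀ j : ℕ, 1 ≤ j → ∃ f : Fin (j ^ h) → K,
    LinearIndependent ℂ f ∧ ∀ l, ∀ v : Place ℂ K, Divisorial N v →
      ∃ s ∈ S, s ≠ 0 ∧ v.ord s - j * m * a v ≤ v.ord (f l)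

/-- Let `X` be an abelian cover of the product of projective spaces of dimensions `n i` over
arbitrary arrangements, with function field `K`, let `U` be a set of the hyperplanes, empty if one of
the arrangements is reducible, let the multiplicities of the cover outside `U` be at least `n i + 2`,
and let `D` be the reduced preimage of the hyperplanes in `U` on a suitable projective manifold `Y`
birational to `X`. If `s (K_Y + D) - A` is pseudo-effective for a divisor `A` and `s ≥ 1`, then
`κ (K_Y + D) ≥ κ (A)`, and even `κ (K_Y + D) ≥ ν (A)`. -/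
theorem result (r N Q R : ℕ) (n q : Fin r → ℕ) (hr : 1 ≤ r) (hn : ∀ i, 1 ≤ n i)
    (ℓ : ∀ i, Fin (q i) → Form (n i)) (X : Cover N Q R)
    (e : ((i : Fin r) × Fin (n i)) ≃ Fin N) (e' : ((i : Fin r) × Fin (q i)) ≃ Fin Q)
    (hX : CoverOfProduct X e e' ℓ) (hF : X.Free) (U : ∀ i, Fin (q i) → Prop)
    (hirr : (∀ i, ¬ Reducible (ℓ i)) ∨ ∀ i k, ¬ U i k)
    (hm : Multiplicities X e' ℓ U) (K : Type) [Field K] [Algebra ℂ K] (z : Fin (N + 1) → K)
    (y : Fin R → K) (hK : X.FunctionField K z y) (s : ℕ) (hs : 1 ≤ s) (a : Place ℂ K → ℤ)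
    (hps : Pool.Agent.W619.TW.IsPsefRest ℂ K N (Over U ℓ (coordinates e z)) s a) (h : ℕ)
    (hA : KodairaDimGe K N a h ∨ NumericalDimGe K N a h) :
    KodGe ℂ K N (Over U ℓ (coordinates e z)) h := by
  classical
  have hA' : Pool.Agent.TH756.CP.DivNumGe ℂ K N a h := by
    rcases hA with ⟨m, hm, hf⟩ | hA
    · refine ⟨{1}, m, hm, fun j hj => ?_⟩
      obtain ⟨f, h1, h2⟩ := hf j hj
      refine ⟨f, h1, fun l v hv => ⟨1, Finset.mem_singleton_self _, one_ne_zero, ?_⟩⟩
      have h3 := h2 l v hv
      rw [v.ord_one]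
      linarith
    · exact hA
  by_cases hred : ∀ i, ¬ Reducible (ℓ i)
  · obtain ⟨I, hI⟩ : ∃ I : Finset (Fin r), ∀ i, i ∈ I ↔
        ¬ ((∃ c, Pool.Agent.TH122.AB.General (ℓ i) c ∧
          Pool.Agent.TH756.PN.CalabiP X e' ℓ i c) ∧ ∀ k, ¬ U i k) :=
      ⟨Finset.univ.filter fun i => ¬ ((∃ c, Pool.Agent.TH122.AB.General (ℓ i) c ∧
          Pool.Agent.TH756.PN.CalabiP X e' ℓ i c) ∧ ∀ k, ¬ U i k), fun i => by
        rw [Finset.mem_filter]
        exact ⟨fun h => h.2, fun h => ⟨Finset.mem_univ _, h⟩⟩⟩
    obtain ⟨h1, h2⟩ := Pool.Agent.TH756.PN.abundancePB e e' hr hn X hF hK hX.forms hX.infinity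
      hX.degrees hred U hm I hI
    exact Pool.Agent.TH756.CP.cp_kod h1 h2 hs hps hA'
  · exfalso
    have hU := hirr.resolve_left hred
    have hBd : Over U ℓ (coordinates e z) = fun _ : Place ℂ K => False := by
      funext P
      apply propext
      constructor
      · rintro ⟨i, k, hk, -⟩
        exact hU i k hk
      · exact False.elim
    rw [hBd] at hps
    have hpsef := Pool.Agent.TH756.CP.psef_of_rest hs hps hA'
    obtain ⟨I, hI⟩ : ∃ I : Finset (Fin r), ∀ i, i ∈ I ↔
        ¬ ∃ c, Pool.Agent.TH122.AB.General (ℓ i) c ∧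
          Pool.Agent.TH756.PN.CalabiP X e' ℓ i c :=
      ⟨Finset.univ.filter fun i => ¬ ∃ c, Pool.Agent.TH122.AB.General (ℓ i) c ∧
          Pool.Agent.TH756.PN.CalabiP X e' ℓ i c, fun i => by
        rw [Finset.mem_filter]
        exact ⟨fun h => h.2, fun h => ⟨Finset.mem_univ _, h⟩⟩⟩
    rcases Pool.Agent.TH756.PN.abundanceP e e' hr hn X hF hK hX.forms hX.infinity hX.degrees
      (fun v h1 h2 h3 => hm v h1 h2 h3 fun i k hk => absurd hk (hU i k)) I hI with h1 | h1
    · exact h1.2.2 hpsef
    · exact hred h1.1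

end Pool.Agent.Results.MP_370cf3_ag.ProductCovers
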